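import Pool.Agent.Results.MP_6ded3d_an.PlanarNonsmoothMinimizer

set_option autoImplicit false
open MeasureTheory Set

namespace Pool.Agent.Y273.InnerDist

open Pool.Agent.Results.MP_6ded3d_an.PlanarNonsmoothMinimizer in
theorem contra (H : ∀ (n : ℕ), 2 ≤ n →
  ∀ (Ω : Set (EuclideanSpace ℝ (Fin n))), IsOpen Ω → IsConnected Ω → Bornology.IsBounded Ω →
  ∀ (opNorm : Matrix (Fin n) (Fin n) ℝ → ℝ),
    (∀ A : Matrix (Fin n) (Fin n) ℝ,
      opNorm A = ‖LinearMap.toContinuousLinearMap (Matrix.toEuclideanLin A)‖) →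
  ∀ (FD : (EuclideanSpace ℝ (Fin n) → EuclideanSpace ℝ (Fin n)) →
      (EuclideanSpace ℝ (Fin n) → Matrix (Fin n) (Fin n) ℝ) → Prop),
    (∀ (f : EuclideanSpace ℝ (Fin n) → EuclideanSpace ℝ (Fin n))
       (Df : EuclideanSpace ℝ (Fin n) → Matrix (Fin n) (Fin n) ℝ),
      FD f Df ↔
      ((∀ i : Fin n, LocallyIntegrableOn (fun x => WithLp.ofLp (f x) i) Ω) ∧
       (∀ i j : Fin n, LocallyIntegrableOn (fun x => Df x i j) Ω) ∧
       (∀ φ : EuclideanSpace ℝ (Fin n) → ℝ,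
          ContDiff ℝ ((⊤ : ℕ∞) : WithTop ℕ∞) φ → HasCompactSupport φ → tsupport φ ⊆ Ω →
          ∀ i j : Fin n,
            ∫ x in Ω, WithLp.ofLp (f x) i * fderiv ℝ φ x (EuclideanSpace.single j (1 : ℝ))
              = - ∫ x in Ω, Df x i j * φ x) ∧
       LocallyIntegrableOn (fun x => (Df x).det) Ω ∧
       (∀ᵐ x ∂(volume.restrict Ω), 0 ≤ (Df x).det) ∧
       ∃ K : EuclideanSpace ℝ (Fin n) → ℝ, Measurable K ∧ (∀ x ∈ Ω, 1 ≤ K x) ∧
         ∀ᵐ x ∂(volume.restrict Ω), opNorm (Df x) ^ n ≤ K x * (Df x).det)) →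
  ∀ (KI : (EuclideanSpace ℝ (Fin n) → Matrix (Fin n) (Fin n) ℝ) → EuclideanSpace ℝ (Fin n) → ℝ),
    (∀ (Df : EuclideanSpace ℝ (Fin n) → Matrix (Fin n) (Fin n) ℝ) (x : EuclideanSpace ℝ (Fin n)),
      KI Df x = if 0 < (Df x).det
        then opNorm (Df x).adjugate ^ n / (Df x).det ^ (n - 1) else 1) →
  ∀ p : ℝ, 1 < p →
  ∀ g : EuclideanSpace ℝ (Fin n) → EuclideanSpace ℝ (Fin n),
    ContinuousOn g (closure Ω) → InjOn g (closure Ω) → g '' closure Ω = closure (g '' Ω) →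
    (∃ Dg : EuclideanSpace ℝ (Fin n) → Matrix (Fin n) (Fin n) ℝ,
      FD g Dg ∧ ∫⁻ x in Ω, ENNReal.ofReal (KI Dg x ^ p) < ⊤) →
  ∀ (f : EuclideanSpace ℝ (Fin n) → EuclideanSpace ℝ (Fin n))
    (Df : EuclideanSpace ℝ (Fin n) → Matrix (Fin n) (Fin n) ℝ),
    ContinuousOn f (closure Ω) → InjOn f (closure Ω) → f '' closure Ω = closure (g '' Ω) →
    (∀ x ∈ frontier Ω, f x = g x) → FD f Df →
    (∀ (h : EuclideanSpace ℝ (Fin n) → EuclideanSpace ℝ (Fin n))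
       (Dh : EuclideanSpace ℝ (Fin n) → Matrix (Fin n) (Fin n) ℝ),
       ContinuousOn h (closure Ω) → InjOn h (closure Ω) → h '' closure Ω = closure (g '' Ω) →
       (∀ x ∈ frontier Ω, h x = g x) → FD h Dh →
       ∫⁻ x in Ω, ENNReal.ofReal (KI Df x ^ p) ≤ ∫⁻ x in Ω, ENNReal.ofReal (KI Dh x ^ p)) →
    (f '' Ω = g '' Ω ∧ ContDiffOn ℝ ((⊤ : ℕ∞) : WithTop ℕ∞) f Ω ∧
      ∃ f' : EuclideanSpace ℝ (Fin n) → EuclideanSpace ℝ (Fin n),
        MapsTo f' (g '' Ω) Ω ∧ (∀ x ∈ Ω, f' (f x) = x) ∧ (∀ y ∈ g '' Ω, f (f' y) = y) ∧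
        ContDiffOn ℝ ((⊤ : ℕ∞) : WithTop ℕ∞) f' (g '' Ω))) : False := by
  have h1 : (1 / 2 : ℝ) < 3 / 2 := by norm_num
  have h2 : (-1 / 2 : ℝ) < 1 / 2 := by norm_num
  have h3 : (0:ℝ) < 1 / 2 := by norm_num
  have hp : (1:ℝ) < 2 := by norm_num
  -- conversion of the two notions of finite distortion
  have toFD : ∀ (Ω : Set (EuclideanSpace ℝ (Fin 2)))
      (f : EuclideanSpace ℝ (Fin 2) → EuclideanSpace ℝ (Fin 2))
      (Df : EuclideanSpace ℝ (Fin 2) → Matrix (Fin 2) (Fin 2) ℝ),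
      FiniteDistortion Ω f Df →
      ((∀ i : Fin 2, LocallyIntegrableOn (fun x => WithLp.ofLp (f x) i) Ω) ∧
       (∀ i j : Fin 2, LocallyIntegrableOn (fun x => Df x i j) Ω) ∧
       (∀ φ : EuclideanSpace ℝ (Fin 2) → ℝ,
          ContDiff ℝ ((⊤ : ℕ∞) : WithTop ℕ∞) φ → HasCompactSupport φ → tsupport φ ⊆ Ω →
          ∀ i j : Fin 2,
            ∫ x in Ω, WithLp.ofLp (f x) i * fderiv ℝ φ x (EuclideanSpace.single j (1 : ℝ))
              = - ∫ x in Ω, Df x i j * φ x) ∧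
       LocallyIntegrableOn (fun x => (Df x).det) Ω ∧
       (∀ᵐ x ∂(volume.restrict Ω), 0 ≤ (Df x).det) ∧
       ∃ K : EuclideanSpace ℝ (Fin 2) → ℝ, Measurable K ∧ (∀ x ∈ Ω, 1 ≤ K x) ∧
         ∀ᵐ x ∂(volume.restrict Ω),
          ‖LinearMap.toContinuousLinearMap (Matrix.toEuclideanLin (Df x))‖ ^ 2 ≤
            K x * (Df x).det) := by
    intro Ω f Df hF
    obtain ⟨K, hK1, hK2, hK3⟩ := hF.bound
    refine ⟨hF.weak.locInt, hF.weak.locInt_differential, ?_, hF.jacobian_locInt,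
      hF.jacobian_nonneg, K, hK1, fun x _ => hK2 x, hK3⟩
    intro φ hφ1 hφ2 hφ3 i j
    have h := hF.weak.weak φ ⟨hφ1, hφ2, hφ3⟩ i j
    have e1 : ∫ x in Ω, WithLp.ofLp (f x) i * fderiv ℝ φ x (EuclideanSpace.single j (1 : ℝ)) =
        ∫ x in Ω, dj φ j x * f x i := by
      congr 1
      funext x
      exact mul_comm _ _
    have e2 : ∫ x in Ω, Df x i j * φ x = ∫ x in Ω, φ x * Df x i j := by
      congr 1
      funext x
      exact mul_comm _ _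
    rw [e1, e2]
    exact h
  have ofFD : ∀ (Ω : Set (EuclideanSpace ℝ (Fin 2)))
      (f : EuclideanSpace ℝ (Fin 2) → EuclideanSpace ℝ (Fin 2))
      (Df : EuclideanSpace ℝ (Fin 2) → Matrix (Fin 2) (Fin 2) ℝ),
      ((∀ i : Fin 2, LocallyIntegrableOn (fun x => WithLp.ofLp (f x) i) Ω) ∧
       (∀ i j : Fin 2, LocallyIntegrableOn (fun x => Df x i j) Ω) ∧
       (∀ φ : EuclideanSpace ℝ (Fin 2) → ℝ,
          ContDiff ℝ ((⊤ : ℕ∞) : WithTop ℕ∞) φ → HasCompactSupport φ → tsupport φ ⊆ Ω →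
          ∀ i j : Fin 2,
            ∫ x in Ω, WithLp.ofLp (f x) i * fderiv ℝ φ x (EuclideanSpace.single j (1 : ℝ))
              = - ∫ x in Ω, Df x i j * φ x) ∧
       LocallyIntegrableOn (fun x => (Df x).det) Ω ∧
       (∀ᵐ x ∂(volume.restrict Ω), 0 ≤ (Df x).det) ∧
       ∃ K : EuclideanSpace ℝ (Fin 2) → ℝ, Measurable K ∧ (∀ x ∈ Ω, 1 ≤ K x) ∧
         ∀ᵐ x ∂(volume.restrict Ω),
          ‖LinearMap.toContinuousLinearMap (Matrix.toEuclideanLin (Df x))‖ ^ 2 ≤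
            K x * (Df x).det) → FiniteDistortion Ω f Df := by
    rintro Ω f Df ⟨g1, g2, g3, g4, g5, K, hK1, hK2, hK3⟩
    refine ⟨⟨g1, g2, ?_⟩, g4, g5, fun x => max 1 (K x), measurable_const.max hK1,
      fun x => le_max_left _ _, ?_⟩
    · rintro φ ⟨hφ1, hφ2, hφ3⟩ i j
      have h := g3 φ hφ1 hφ2 hφ3 i j
      have e1 : ∫ x in Ω, WithLp.ofLp (f x) i * fderiv ℝ φ x (EuclideanSpace.single j (1 : ℝ)) =
          ∫ x in Ω, dj φ j x * f x i := by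
        congr 1
        funext x
        exact mul_comm _ _
      have e2 : ∫ x in Ω, Df x i j * φ x = ∫ x in Ω, φ x * Df x i j := by
        congr 1
        funext x
        exact mul_comm _ _
      rw [e1, e2] at h
      exact h
    · filter_upwards [g5, hK3] with x hx1 hx2
      have h5 : K x * (Df x).det ≤ max 1 (K x) * (Df x).det :=
        mul_le_mul_of_nonneg_right (le_max_right _ _) hx1
      exact le_trans hx2 h5
  have hmin := gmap_minimizer hp h3 h1 h2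
  have hhom := gmap_homeo 2 h3 h1 h2
  have hfd := gmap_finiteDistortion 2 h3 (b := 3 / 2) (c := -1 / 2) (d := 1 / 2)
  have hlp := gmap_memLp 2 h3 (b := 3 / 2) (c := -1 / 2) (d := 1 / 2)
  have key := H 2 le_rfl (Rect (1 / 2) (3 / 2) (-1 / 2) (1 / 2)) (isOpen_Rect _ _ _ _)
    (isConnected_Rect h1 h2) (isBounded_Rect _ _ _ _)
    (fun A => ‖LinearMap.toContinuousLinearMap (Matrix.toEuclideanLin A)‖) (fun _ => rfl)
    _ (fun _ _ => Iff.rfl)
    _ (fun _ _ => rfl) 2 hp (gmap 2) hhom.1 hhom.2.1.injOn hhom.2.1.image_eq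
    ⟨gmat 2, toFD _ _ _ hfd, ?_⟩ (gmap 2) (gmat 2) hhom.1 hhom.2.1.injOn hhom.2.1.image_eq
    (fun _ _ => rfl) (toFD _ _ _ hfd) ?_
  · exact gmap_not_C2 hp (by exact_mod_cast contDiffOn_infty.1 key.2.1 2)
  · have h4 := lintegral_rpow_enorm_lt_top_of_eLpNorm_lt_top (by norm_num) (by norm_num) hlp.2
    have h5 : (ENNReal.ofReal 2).toReal = 2 := by norm_num
    rw [h5] at h4
    refine lt_of_le_of_lt (le_of_eq ?_) h4
    congr 1
    funext x
    have h6 : 0 ≤ innerDistortion (gmat 2 x) := by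
      unfold innerDistortion opNorm
      split_ifs with hdet
      · positivity
      · norm_num
    rw [Real.enorm_of_nonneg h6, ENNReal.ofReal_rpow_of_nonneg h6 (by norm_num)]
    rfl
  · intro h Dh hc hinj himg hbd hFD
    refine hmin.2 h Dh ⟨?_, ofFD _ _ _ hFD, hbd⟩
    rw [← himg]
    exact isHomeoOnto_of_compact (by
      rw [closure_Rect h1 h2]; exact isCompact_CRect _ _ _ _) hc hinj

end Pool.Agent.Y273.InnerDist
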