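import Pool.Agent.Helper66.FracD

set_option autoImplicit false
open MeasureTheory Filter Set

namespace Pool.Agent.Y273.Frac1

open Pool.Agent.Helper66.Frac

/-- the coordinate as a measurable equivalence -/
noncomputable def e0 : (Fin 1 → ℝ) ≃ᵐ ℝ := MeasurableEquiv.funUnique (Fin 1) ℝ

theorem e0_apply (x : Fin 1 → ℝ) : e0 x = x 0 := rfl

theorem e0_mp : MeasurePreserving e0 (volume : Measure (Fin 1 → ℝ)) volume :=
  volume_preserving_funUnique (Fin 1) ℝ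

theorem vol0 (S : Set ℝ) : volume (e0 ⁻¹' S) = volume S :=
  e0_mp.measure_preimage_equiv S

theorem pi_eq (a : Fin 1 → ℝ) (l : ℝ) :
    Set.univ.pi (fun i => Set.Ico (a i) (a i + l)) = e0 ⁻¹' (Ico (a 0) (a 0 + l)) := by
  ext x
  simp only [mem_preimage, mem_Ico, e0_apply, mem_univ_pi]
  constructor
  · intro h; exact h 0
  · intro h i
    have : i = 0 := Subsingleton.elim _ _
    subst this
    exact h

/-- the weight -/
noncomputable def w0 (x : Fin 1 → ℝ) : ℝ := (e0 ⁻¹' EE).indicator 1 x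

theorem w0_meas : Measurable w0 := by
  unfold w0
  exact measurable_one.indicator (e0.measurable EE_meas)

theorem w0_nonneg (x : Fin 1 → ℝ) : 0 ≤ w0 x := by
  unfold w0
  exact indicator_nonneg (fun _ _ => zero_le_one) x

theorem w0_loc : LocallyIntegrable w0 := by
  have h1 : LocallyIntegrable (fun _ : Fin 1 → ℝ => (1:ℝ)) :=
    locallyIntegrable_const 1
  have h2 := h1.indicator (e0.measurable EE_meas)
  exact h2

theorem w0_mem {x : Fin 1 → ℝ} (h : e0 x ∈ EE) : w0 x = 1 := by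
  unfold w0
  rw [indicator_of_mem (show x ∈ e0 ⁻¹' EE from h)]
  rfl

theorem w0_not {x : Fin 1 → ℝ} (h : e0 x ∉ EE) : w0 x = 0 := by
  unfold w0
  rw [indicator_of_notMem (show x ∉ e0 ⁻¹' EE from h)]

theorem lint_w0 (a l : ℝ) : ∫⁻ x in e0 ⁻¹' (Ico a (a + l)), ENNReal.ofReal (w0 x) =
    volume (EE ∩ Ico a (a + l)) := by
  have h : MeasurableSet (e0 ⁻¹' EE) := e0.measurable EE_meas
  have h2 : (fun x => ENNReal.ofReal (w0 x)) = (e0 ⁻¹' EE).indicator (fun _ => 1) := by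
    funext x
    by_cases hx : e0 x ∈ EE
    · rw [indicator_of_mem (show x ∈ e0 ⁻¹' EE from hx), w0_mem hx, ENNReal.ofReal_one]
    · rw [indicator_of_notMem (show x ∉ e0 ⁻¹' EE from hx), w0_not hx, ENNReal.ofReal_zero]
  rw [h2, lintegral_indicator h, Measure.restrict_restrict h, setLIntegral_const,
    ← preimage_inter, vol0, one_mul]

theorem lint_Y (a l c : ℝ) (e : ℝ) (he : e ≠ 0) :
    ∫⁻ x in e0 ⁻¹' (Ico a (a + l)), ENNReal.ofReal (Y (w0 x ^ e / c)) =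
      ENNReal.ofReal (Y (1 / c)) * volume (EE ∩ Ico a (a + l)) := by
  have h : MeasurableSet (e0 ⁻¹' EE) := e0.measurable EE_meas
  have h2 : (fun x => ENNReal.ofReal (Y (w0 x ^ e / c))) =
      (e0 ⁻¹' EE).indicator (fun _ => ENNReal.ofReal (Y (1 / c))) := by
    funext x
    by_cases hx : e0 x ∈ EE
    · rw [indicator_of_mem (show x ∈ e0 ⁻¹' EE from hx), w0_mem hx, Real.one_rpow]
    · rw [indicator_of_notMem (show x ∉ e0 ⁻¹' EE from hx), w0_not hx,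
        Real.zero_rpow he, zero_div, Y_zero, ENNReal.ofReal_zero]
  rw [h2, lintegral_indicator h, Measure.restrict_restrict h, setLIntegral_const,
    ← preimage_inter, vol0]

/-- the key product bound -/
theorem prod_le (a : Fin 1 → ℝ) (l : ℝ) (hl : 0 < l) (e : ℝ) (he : e = 1 / 2) :
    (volume (e0 ⁻¹' (Ico (a 0) (a 0 + l)))) ^ (1 / 2 : ℝ) *
      ((∫⁻ x in e0 ⁻¹' (Ico (a 0) (a 0 + l)), ENNReal.ofReal (w0 x)) /
        volume (e0 ⁻¹' (Ico (a 0) (a 0 + l)))) ^ (1 / 2 : ℝ) *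
      (⨅ (c : ℝ) (_ : 0 < c ∧
        (∫⁻ x in e0 ⁻¹' (Ico (a 0) (a 0 + l)), ENNReal.ofReal (Y (w0 x ^ e / c))) ≤
          volume (e0 ⁻¹' (Ico (a 0) (a 0 + l)))), ENNReal.ofReal c) ≤ 9 := by
  subst he
  have hvq : volume (e0 ⁻¹' (Ico (a 0) (a 0 + l))) = ENNReal.ofReal l := by
    rw [vol0, Real.volume_Ico]; simp
  rw [hvq, lint_w0]
  have hlpos : ENNReal.ofReal l ≠ 0 := by simpa using hl
  rw [← ENNReal.mul_rpow_of_nonneg _ _ (by norm_num),
    ENNReal.mul_div_cancel hlpos ENNReal.ofReal_ne_top]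
  set v := volume (EE ∩ Ico (a 0) (a 0 + l)) with hv
  have hvt : v ≠ ⊤ := by
    apply ne_of_lt
    refine (measure_mono inter_subset_right).trans_lt ?_
    rw [Real.volume_Ico]
    exact ENNReal.ofReal_lt_top
  by_cases hv0 : v = 0
  · rw [hv0, ENNReal.zero_rpow_of_pos (by norm_num), zero_mul]
    exact bot_le
  have hh : 0 < v.toReal := ENNReal.toReal_pos hv0 hvt
  have hs : 0 < Real.sqrt v.toReal := Real.sqrt_pos.mpr hh
  have hlux : (⨅ (c : ℝ) (_ : 0 < c ∧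
        (∫⁻ x in e0 ⁻¹' (Ico (a 0) (a 0 + l)), ENNReal.ofReal (Y (w0 x ^ (1 / 2 : ℝ) / c))) ≤
          ENNReal.ofReal l), ENNReal.ofReal c) ≤
      ENNReal.ofReal (9 / Real.sqrt v.toReal) := by
    refine iInf₂_le_of_le (9 / Real.sqrt v.toReal) ⟨by positivity, ?_⟩ le_rfl
    rw [lint_Y _ _ _ _ (by norm_num)]
    have h1 := bump_real (a 0) l (9 / Real.sqrt v.toReal) hl (by positivity) (by
      rw [← hv, mul_div_cancel₀ _ hs.ne']
      norm_num)
    rw [← hv] at h1 ⊢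
    calc ENNReal.ofReal (Y (1 / (9 / Real.sqrt v.toReal))) * v
        = ENNReal.ofReal (Y (1 / (9 / Real.sqrt v.toReal))) * ENNReal.ofReal v.toReal := by
          rw [ENNReal.ofReal_toReal hvt]
      _ = ENNReal.ofReal (v.toReal * Y (1 / (9 / Real.sqrt v.toReal))) := by
          rw [← ENNReal.ofReal_mul (Y_nonneg _), mul_comm]
      _ ≤ ENNReal.ofReal l := ENNReal.ofReal_le_ofReal h1
  calc v ^ (1 / 2 : ℝ) * _
      ≤ v ^ (1 / 2 : ℝ) * ENNReal.ofReal (9 / Real.sqrt v.toReal) := by gcongr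
    _ = 9 := by
        have h1 : v ^ (1 / 2 : ℝ) = ENNReal.ofReal (Real.sqrt v.toReal) := by
          rw [Real.sqrt_eq_rpow, ← ENNReal.ofReal_rpow_of_nonneg hh.le (by norm_num),
            ENNReal.ofReal_toReal hvt]
        rw [h1, ← ENNReal.ofReal_mul hs.le, mul_div_cancel₀ _ hs.ne']
        norm_num

/-- the real norm on the one-dimensional space -/
theorem sqrt_sum (x y : Fin 1 → ℝ) : Real.sqrt (∑ i, (x i - y i) ^ 2) = |e0 x - e0 y| := by
  simp [e0_apply, Real.sqrt_sq_eq_abs]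

theorem potential0 (m : ℕ) (x : Fin 1 → ℝ) (hx : e0 x ∈ E m)
    (f : (Fin 1 → ℝ) → ℝ) (hf : f = (e0 ⁻¹' (E m)).indicator 1)
    (q : ℝ) (hq : q = -(1/2)) :
    ENNReal.ofReal (∑ i ∈ Finset.range m, 1 / (2 * ((i : ℝ) + 2))) ≤
      ∫⁻ y, ENNReal.ofReal (f y * w0 y * (Real.sqrt (∑ i, (x i - y i) ^ 2)) ^ q) := by
  refine (potential m (e0 x) hx).trans (le_of_eq ?_)
  subst hf hq
  have hE : MeasurableSet (E m) := E_meas m
  rw [← lintegral_indicator hE]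
  rw [← e0_mp.lintegral_comp_emb e0.measurableEmbedding]
  congr 1
  funext y
  by_cases hy : e0 y ∈ E m
  · rw [indicator_of_mem hy, indicator_of_mem (show y ∈ e0 ⁻¹' E m from hy),
      w0_mem (mem_iUnion.mpr ⟨m, hy⟩), sqrt_sum]
    simp
  · rw [indicator_of_notMem hy, indicator_of_notMem (show y ∉ e0 ⁻¹' E m from hy)]
    simp

theorem ofReal_w0_int (m : ℕ) : ∫⁻ x in e0 ⁻¹' (E m), ENNReal.ofReal (w0 x) = 2 ^ m := by
  have h : ∫⁻ x in e0 ⁻¹' (E m), ENNReal.ofReal (w0 x) = ∫⁻ x in e0 ⁻¹' (E m), 1 := by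
    apply setLIntegral_congr_fun (e0.measurable (E_meas m))
    intro x hx
    show ENNReal.ofReal (w0 x) = 1
    rw [w0_mem (mem_iUnion.mpr ⟨m, hx⟩), ENNReal.ofReal_one]
  rw [h, setLIntegral_const, vol0, E_vol, one_mul]

theorem f0_int (m : ℕ) (p : ℝ) (hp : 0 < p) :
    ∫⁻ y, ENNReal.ofReal (((e0 ⁻¹' (E m)).indicator 1 y) ^ p * w0 y) = 2 ^ m := by
  rw [← ofReal_w0_int m, ← lintegral_indicator (e0.measurable (E_meas m))]
  congr 1
  funext y
  by_cases hy : y ∈ e0 ⁻¹' E m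
  · rw [indicator_of_mem hy, indicator_of_mem hy]
    simp
  · rw [indicator_of_notMem hy, indicator_of_notMem hy, Real.zero_rpow hp.ne']
    simp

/-- Failure of the strong type bound. -/
theorem strong_fail0 (q : ℝ) (hq : q = -(1/2)) :
    ¬ ∃ C : ℝ, ∀ f : (Fin 1 → ℝ) → ℝ, Measurable f → (∀ y, 0 ≤ f y) →
          ∫⁻ x, (∫⁻ y, ENNReal.ofReal (f y * w0 y *
            (Real.sqrt (∑ i, (x i - y i) ^ 2)) ^ q)) ^ (2:ℝ) * ENNReal.ofReal (w0 x)
            ≤ ENNReal.ofReal C * ∫⁻ y, ENNReal.ofReal (f y ^ (2:ℝ) * w0 y) := by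
  rintro ⟨C', H'⟩
  set C := max C' 0 with hCdef
  have hC : 0 ≤ C := le_max_right _ _
  have H : ∀ f : (Fin 1 → ℝ) → ℝ, Measurable f → (∀ y, 0 ≤ f y) →
          ∫⁻ x, (∫⁻ y, ENNReal.ofReal (f y * w0 y *
            (Real.sqrt (∑ i, (x i - y i) ^ 2)) ^ q)) ^ (2:ℝ) * ENNReal.ofReal (w0 x)
            ≤ ENNReal.ofReal C * ∫⁻ y, ENNReal.ofReal (f y ^ (2:ℝ) * w0 y) := by
    intro f hf hf0
    refine (H' f hf hf0).trans ?_
    gcongr
    exact le_max_left _ _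
  obtain ⟨m, hm⟩ := (sum_tendsto.eventually_gt_atTop (C + 1)).exists
  set c := ∑ i ∈ Finset.range m, 1 / (2 * ((i : ℝ) + 2)) with hc
  have hEm : MeasurableSet (e0 ⁻¹' (E m)) := e0.measurable (E_meas m)
  have h1 := H ((e0 ⁻¹' (E m)).indicator 1) (measurable_one.indicator hEm)
    (fun y => indicator_nonneg (fun _ _ => zero_le_one) y)
  rw [f0_int m 2 (by norm_num)] at h1
  have h2 : ENNReal.ofReal c ^ (2:ℝ) * 2 ^ m ≤ ENNReal.ofReal C * 2 ^ m := by
    refine le_trans ?_ h1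
    calc ENNReal.ofReal c ^ (2:ℝ) * 2 ^ m
        = ENNReal.ofReal c ^ (2:ℝ) * ∫⁻ x in e0 ⁻¹' (E m), ENNReal.ofReal (w0 x) := by
          rw [ofReal_w0_int]
      _ = ∫⁻ x in e0 ⁻¹' (E m), ENNReal.ofReal c ^ (2:ℝ) * ENNReal.ofReal (w0 x) := by
          rw [lintegral_const_mul]
          exact w0_meas.ennreal_ofReal
      _ ≤ ∫⁻ x in e0 ⁻¹' (E m), (∫⁻ y, ENNReal.ofReal ((e0 ⁻¹' (E m)).indicator 1 y * w0 y *
            (Real.sqrt (∑ i, (x i - y i) ^ 2)) ^ q)) ^ (2:ℝ) * ENNReal.ofReal (w0 x) := by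
          apply setLIntegral_mono' hEm
          intro x hx
          gcongr
          exact potential0 m x hx _ rfl q hq
      _ ≤ _ := setLIntegral_le_lintegral _ _
  have h3 : ENNReal.ofReal c ^ (2:ℝ) ≤ ENNReal.ofReal C := by
    have h4 : (2:ENNReal) ^ m ≠ 0 := by positivity
    have h5 : (2:ENNReal) ^ m ≠ ⊤ := ENNReal.pow_ne_top (by norm_num)
    exact (ENNReal.mul_le_mul_iff_left h4 h5).mp h2
  rw [ENNReal.ofReal_rpow_of_nonneg (by linarith) (by norm_num),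
    ENNReal.ofReal_le_ofReal_iff hC, Real.rpow_two] at h3
  nlinarith

theorem conj_le (t : ℝ) (ht : 1 < t) :
    (⨆ s : Set.Ioi (0 : ℝ), ((s : ℝ) * t - Y s)) ≤ Ybar t := by
  have : Nonempty (Set.Ioi (0:ℝ)) := ⟨⟨1, by simp⟩⟩
  apply ciSup_le
  intro s
  unfold Ybar
  have hs : (0:ℝ) < (s:ℝ) := s.2
  refine le_ciSup_of_le (conj_bdd t) ⟨(s:ℝ), mem_Ici.2 hs.le⟩ ?_
  simp only
  linarith [mul_comm (s:ℝ) t]

theorem conj_int (e : ℝ) (he : e = -3) :
    ∫⁻ t in Set.Ioi (1 : ℝ), ENNReal.ofReal ((⨆ s : Set.Ioi (0 : ℝ), ((s : ℝ) * t - Y s)) *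
      t ^ e) < ⊤ := by
  subst he
  have h := Ybar_int
  have h2 := h.2
  refine lt_of_le_of_lt ?_ h2
  apply setLIntegral_mono' measurableSet_Ioi
  intro t ht
  have ht1 : (1:ℝ) < t := ht
  have ht0 : 0 < t := by linarith
  have hY := Ybar_nonneg t
  rw [Real.enorm_of_nonneg (by positivity)]
  apply ENNReal.ofReal_le_ofReal
  have h3 : Ybar t / t ^ (2:ℝ) / t = Ybar t * t ^ (-3 : ℝ) := by
    rw [Real.rpow_neg ht0.le, Real.rpow_two]
    rw [show (3:ℝ) = ((3:ℕ):ℝ) by norm_num, Real.rpow_natCast]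
    field_simp
  show _ ≤ Ybar t / t ^ (2:ℝ) / t
  rw [h3]
  apply mul_le_mul_of_nonneg_right (conj_le t ht1)
  positivity

end Pool.Agent.Y273.Frac1
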